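import Pool.Agent.TH990.HU.Pre

/-!
# Project HU, C13: the planar theorem (assembly)
-/

set_option autoImplicit false

open MeasureTheory Set Metric Filter Topology
open scoped ENNReal Real
open Pool.Agent.TH304.MI Pool.Agent.TH703.HU

noncomputable section

namespace Pool.Agent.TH990.HU

/-- Everything that is needed of `m`. -/
structure GM (m : ℕ) : Prop where
  w0 : ∀ x, 0 ≤ wt m x
  w1 : ∀ x, wt m x ≤ 1
  wc : Continuous (wt m)
  wD : {x | 0 < wt m x} = DD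
  wI : Integrable (wt m)
  sw : ∀ a b : ℝ, wt m ⟨b, a⟩ = wt m ⟨a, b⟩
  sr : ∀ a b : ℝ, wt m ⟨-a, b⟩ = wt m ⟨a, b⟩
  si : ∀ a b : ℝ, wt m ⟨a, -b⟩ = wt m ⟨a, b⟩
  big : ∀ x : ℂ, |x.re| ≤ 1 / 2 - 1 / 10 ^ 30 → |x.im| ≤ 1 / 2 - 1 / 10 ^ 30 →
    1 - 1 / 10 ^ 30 ≤ wt m x
  small : ∀ x : ℂ, (1 / 2 + 1 / 10 ^ 30 ≤ |x.re| ∨ 1 / 2 + 1 / 10 ^ 30 ≤ |x.im|) →
    wt m x ≤ 1 / 10 ^ 30
  c5 : ∀ (G : Set ℂ) (P : ℝ), MeasurableSet G →
    G ⊆ ball 1 (3 / 5) → 0 ≤ P → PW (wt m) G P → mu (wt m) G ≤ 11 / 10 * P ^ 2 + P / √m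
  c6 : ∀ (y : ℝ) (G : Set ℂ) (P : ℝ), |y| ≤ 1 / 4 →
    MeasurableSet G → G ⊆ ball ⟨1 / 2 + 1 / 20 / √m, y⟩ (1 / 20 / √m) → 0 ≤ P →
    PW (wt m) G P → 7 / 10 * √(mu (wt m) G) ≤ P
  c7 : ∀ (v : ℝ) (A : Set ℂ), MinW (wt m) (10 ^ 5) v A →
    volume (A ∩ {x | |x.re - (1 / 2 + 1 / 20 / √m)| < 1 / 100 / √m ∧ |x.im| < 1 / 4}) = 0 →
    volume (A ∩ DD ∩ ball 1 (1 / 20)) = 0
  c8a : ContinuousOn (fun r : ℝ => mu (wt m) (ball ⟨1 / 2, 1 / 2⟩ r)) (Icc 0 (3 / 10))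
  c8b : ∀ r ∈ Icc (0 : ℝ) (3 / 10),
    |mu (wt m) (ball ⟨1 / 2, 1 / 2⟩ r) - π * r ^ 2 / 4| ≤ 1 / 10 ^ 30 ∧
    PW (wt m) (ball ⟨1 / 2, 1 / 2⟩ r) (π * r / 2 + 1 / 10 ^ 30)
  hm : (10 : ℝ) ^ 7 ≤ √m

theorem exists_good (c0 : S_C0) (c1 : S_C1) (c5 : S_C5) (c6 : S_C6) (c7 : S_C7) (c8 : S_C8) :
    ∃ m : ℕ, 1 ≤ m ∧ GM m := by
  obtain ⟨m1, h1⟩ := c1.1 (1 / 10 ^ 30) (by norm_num)
  obtain ⟨m5, h5⟩ := c5
  obtain ⟨m6, h6⟩ := c6
  obtain ⟨m7, h7⟩ := c7 (10 ^ 5) (by norm_num)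
  obtain ⟨m8, h8⟩ := c8 (1 / 10 ^ 30) (by norm_num)
  set m : ℕ := m1 + m5 + m6 + m7 + m8 + 100000000000000 with hmdef
  have g1 : m1 ≤ m := by omega
  have g5 : m5 ≤ m := by omega
  have g6 : m6 ≤ m := by omega
  have g7 : m7 ≤ m := by omega
  have g8 : m8 ≤ m := by omega
  have gm : 100000000000000 ≤ m := by omega
  have gp : 1 ≤ m := by omega
  clear_value m
  obtain ⟨-, k1, k2, k3, k4, -, k6, k7, k8, k9, -, -⟩ := c0 m gp
  refine ⟨m, gp, ?_⟩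
  have hsq : (10 : ℝ) ^ 7 ≤ √m := by
    rw [Real.le_sqrt (by norm_num) (Nat.cast_nonneg _)]
    have : ((100000000000000 : ℕ) : ℝ) ≤ (m : ℝ) := by exact_mod_cast gm
    norm_num at this ⊢
    linarith
  exact ⟨k2, k3, k1, k4, k6, k7, k8, k9, (h1 m g1).1, (h1 m g1).2, h5 m g5, h6 m g6, h7 m g7,
    (h8 m g8).1, (h8 m g8).2, hsq⟩

/-- the competitor -/
theorem competitor {m : ℕ} (gm : GM m) :
    mu (wt m) (ball ⟨1 / 2, 1 / 2⟩ (205 / 10 ^ 7)) ≤ 34 / 10 ^ 11 ∧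
    PW (wt m) (ball ⟨1 / 2, 1 / 2⟩ (205 / 10 ^ 7)) (π * (205 / 10 ^ 7) / 2 + 1 / 10 ^ 30) ∧
    π * (205 / 10 ^ 7) / 2 + 1 / 10 ^ 30 ≤
      10 ^ 5 * mu (wt m) (ball ⟨1 / 2, 1 / 2⟩ (205 / 10 ^ 7)) - 7 / 10 ^ 7 := by
  obtain ⟨h1, h2⟩ := gm.c8b (205 / 10 ^ 7) ⟨by norm_num, by norm_num⟩
  have hpi1 := Real.pi_gt_d4
  have hpi2 := Real.pi_lt_d4
  rw [abs_le] at h1
  refine ⟨?_, h2, ?_⟩
  · have := h1.2
    norm_num at this ⊢
    linarith
  · have := h1.1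
    norm_num at this ⊢
    linarith

theorem vol_split {δ : ℝ} (hδ : 0 < δ) (A R : Set ℂ) (hR : MeasurableSet R) :
    volume.real (A ∩ QQ δ ∩ R) + volume.real ((A ∩ QQ δ) \ R) = volume.real (A ∩ QQ δ) := by
  have fin : volume (A ∩ QQ δ) ≠ ∞ :=
    ne_top_of_le_ne_top (QQ_fin hδ) (measure_mono inter_subset_right)
  exact measureReal_inter_add_sdiff (μ := volume) (s := A ∩ QQ δ) (t := R) hR fin

/-- the window -/
def RR : Set ℂ := {x | 2 / 5 < x.re ∧ |x.im| < 43 / 100}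

theorem meas_RR : MeasurableSet RR := by
  have h2 : Measurable fun x : ℂ => |x.im| := Complex.measurable_im.abs
  exact (measurableSet_lt measurable_const Complex.measurable_re).inter
    (measurableSet_lt h2 measurable_const)

/-- small mass near the vertex 1 -/
theorem mass_ball {m : ℕ} (gm : GM m) (c4 : S_C4) {A : Set ℂ}
    (hA : MinW (wt m) (10 ^ 5) (34 / 10 ^ 11) A) :
    (10 ^ 5) ^ 2 * mu (wt m) (A ∩ ball 1 (3 / 5)) ≤ 43 / 100 := by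
  have hδ : (0 : ℝ) < 1 / 10 ^ 30 := by norm_num
  have hδ' : (1 : ℝ) / 10 ^ 30 ≤ 1 / 1000 := by norm_num
  obtain ⟨f1, f2, f3⟩ := competitor gm
  obtain ⟨b1, b2⟩ := mass_bounds hδ gm.w0 gm.w1 gm.wD gm.wI gm.small gm.big hA.meas
  have hMv : mu (wt m) A ≤ 34 / 10 ^ 11 := hA.le
  have hM0 : 0 ≤ mu (wt m) A := integral_nonneg gm.w0
  have spl := vol_split hδ A RR meas_RR
  have ha : 0 ≤ volume.real (A ∩ QQ (1 / 10 ^ 30) ∩ RR) := measureReal_nonneg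
  have hb : 0 ≤ volume.real ((A ∩ QQ (1 / 10 ^ 30)) \ RR) := measureReal_nonneg
  have hV0 : 0 ≤ volume.real (A ∩ QQ (1 / 10 ^ 30)) := measureReal_nonneg
  -- lower bound of the mass
  have hV1 : 1 / 10 ^ 10 ≤ volume.real (A ∩ QQ (1 / 10 ^ 30)) := by
    have p1 := hA.min _ _ measurableSet_ball f1 f2
    have p2 := pw_nonneg gm.w0 p1
    have p3 := (c4 (wt m) A _ (1 / 10 ^ 30) gm.wc gm.w0 hA.meas hδ hδ' p2 gm.big p1
      (QQ (1 / 10 ^ 30)) RR rfl rfl).1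
    refine num_lower ha hb spl b1 ?_ p3
    have : (10 : ℝ) ^ 5 * (mu (wt m) A - mu (wt m) (ball ⟨1 / 2, 1 / 2⟩ (205 / 10 ^ 7))) =
      10 ^ 5 * mu (wt m) A - 10 ^ 5 * mu (wt m) (ball ⟨1 / 2, 1 / 2⟩ (205 / 10 ^ 7)) := by ring
    rw [this]
    linarith
  -- upper bound
  have hV2 : volume.real (A ∩ QQ (1 / 10 ^ 30)) ≤ 35 / 10 ^ 11 := by
    by_contra hc
    push Not at hc
    have : (1 - 1 / 10 ^ 30) * (35 / 10 ^ 11) ≤
        (1 - 1 / 10 ^ 30) * volume.real (A ∩ QQ (1 / 10 ^ 30)) :=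
      mul_le_mul_of_nonneg_left hc.le (by norm_num)
    have h2 : (1 - 1 / 10 ^ 30) * (35 / 10 ^ 11) ≤ (34 / 10 ^ 11 : ℝ) :=
      this.trans (b2.trans hMv)
    norm_num at h2
  have hiv : ∃ r ∈ Icc (0 : ℝ) (3 / 10), mu (wt m) (ball ⟨1 / 2, 1 / 2⟩ r) = mu (wt m) A := by
    have := intermediate_value_Icc (by norm_num : (0 : ℝ) ≤ 3 / 10) gm.c8a
    have hmem : mu (wt m) A ∈ Icc (mu (wt m) (ball ⟨1 / 2, 1 / 2⟩ 0))
        (mu (wt m) (ball ⟨1 / 2, 1 / 2⟩ (3 / 10))) := by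
      constructor
      · rw [ball_zero]
        have : mu (wt m) (∅ : Set ℂ) = 0 := by simp [mu]
        rw [this]
        exact hM0
      · have h3 := (abs_le.1 (gm.c8b (3 / 10) ⟨by norm_num, le_refl _⟩).1).1
        have hpi1 := Real.pi_gt_d4
        refine hMv.trans ?_
        norm_num at h3 ⊢
        linarith
    obtain ⟨r, hr, hr2⟩ := this hmem
    exact ⟨r, hr, hr2⟩
  obtain ⟨r, hr, hrM⟩ := hiv
  obtain ⟨e1, e2⟩ := gm.c8b r hr
  have p1 := hA.min _ _ measurableSet_ball (by rw [hrM]; exact hMv) e2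
  rw [hrM, sub_self, mul_zero, add_zero] at p1
  have p2 := pw_nonneg gm.w0 p1
  have p3 := c4 (wt m) A _ (1 / 10 ^ 30) gm.wc gm.w0 hA.meas hδ hδ' p2 gm.big p1
    (QQ (1 / 10 ^ 30)) RR rfl rfl
  rw [hrM] at e1
  have hfin := num_upper ha hb spl hr.1 hV1 hV2 b1 e1 p3.1 p3.2
  -- conclusion
  have b3 := (mass_bounds hδ gm.w0 gm.w1 gm.wD gm.wI gm.small gm.big
    (hA.meas.inter (measurableSet_ball (x := (1 : ℂ)) (ε := 3 / 5)))).1
  have hsub : A ∩ ball 1 (3 / 5) ∩ QQ (1 / 10 ^ 30) ⊆ A ∩ QQ (1 / 10 ^ 30) ∩ RR := by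
    rintro x ⟨⟨h1, h2⟩, h3⟩
    refine ⟨⟨h1, h3⟩, ?_⟩
    rw [mem_ball, dist_eq_norm] at h2
    have h4 : (x.re - 1) ^ 2 + x.im ^ 2 < (3 / 5) ^ 2 := by
      have h5 : ‖x - 1‖ ^ 2 < (3 / 5) ^ 2 := pow_lt_pow_left₀ h2 (norm_nonneg _) (by norm_num)
      rw [Complex.sq_norm, Complex.normSq_apply] at h5
      simp only [Complex.sub_re, Complex.one_re, Complex.sub_im, Complex.one_im, sub_zero] at h5
      linarith
    have h6 : |x.re| < 1 / 2 := lt_of_lt_of_le h3.1 (by norm_num)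
    rw [abs_lt] at h6
    constructor
    · nlinarith [sq_nonneg x.im]
    · rw [abs_lt]
      constructor <;> nlinarith
  have h5 : volume.real (A ∩ ball 1 (3 / 5) ∩ QQ (1 / 10 ^ 30)) ≤
      volume.real (A ∩ QQ (1 / 10 ^ 30) ∩ RR) :=
    measureReal_mono hsub (ne_top_of_le_ne_top (QQ_fin hδ)
      (measure_mono fun x hx => hx.1.2))
  have h6 : mu (wt m) (A ∩ ball 1 (3 / 5)) ≤ 11 / 100 * (35 / 10 ^ 11) + 20 * (1 / 10 ^ 30) := by
    linarith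
  norm_num at h6 ⊢
  linarith

/-- phase 1 -/
theorem phase1 {m : ℕ} (gm : GM m) (c4 : S_C4) (c9 : S_C9) (c11 : S_C11) {A : Set ℂ}
    (hA : MinW (wt m) (10 ^ 5) (34 / 10 ^ 11) A) :
    mu (wt m) (A ∩ ball 1 (29 / 50)) ≤ (1 / √m) ^ 2 / 10 ^ 6 := by
  have hsm := gm.hm
  have hsp : (0 : ℝ) < √m := lt_of_lt_of_le (by norm_num) hsm
  have hk : 1 / √m ≤ 1 / 10 ^ 7 := one_div_le_one_div_of_le (by norm_num) hsm
  refine c11 (fun t => mu (wt m) (A ∩ ball 1 t)) (10 ^ 5) (1 / √m) 8 ?_ ?_ ?_ (by norm_num)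
    (by positivity) (hk.trans (by norm_num)) (hk.trans (by norm_num)) (mass_ball gm c4 hA) ?_
  · intro s _ t _ hst
    exact mu_mono gm.w0 gm.wI (inter_subset_inter_right _ (ball_subset_ball hst))
  · intro s hs t ht
    exact mu_ball_lip gm.w0 gm.w1 gm.wI A 1 (by linarith [hs.1]) (by linarith [ht.1])
      (by linarith [hs.2]) (by linarith [ht.2])
  · intro t _
    exact integral_nonneg gm.w0
  · intro t ht d hd
    have h1 := c9 (wt m) (10 ^ 5) (34 / 10 ^ 11) A gm.wc gm.w0 gm.wI (by norm_num) hA 1 t d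
      (by linarith [ht.1]) hd
    have h2 := gm.c5 _ _ (hA.meas.inter measurableSet_ball)
      (inter_subset_right.trans (ball_subset_ball ht.2.le)) (pw_nonneg gm.w0 h1) h1
    have h3 : (2 * d + 10 ^ 5 * mu (wt m) (A ∩ ball 1 t)) / √m =
        1 / √m * (2 * d + 10 ^ 5 * mu (wt m) (A ∩ ball 1 t)) := by ring
    rw [h3] at h2
    exact h2

theorem norm_lt_of_sq {z : ℂ} {r : ℝ} (hr : 0 < r) (h : z.re ^ 2 + z.im ^ 2 < r ^ 2) : ‖z‖ < r := by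
  have : ‖z‖ ^ 2 < r ^ 2 := by
    rw [Complex.sq_norm, Complex.normSq_apply]
    linarith
  exact lt_of_pow_lt_pow_left₀ 2 hr.le this

/-- phase 2 -/
theorem phase2 {m : ℕ} (gm : GM m) (c9 : S_C9) (c10 : S_C10) {A : Set ℂ}
    (hA : MinW (wt m) (10 ^ 5) (34 / 10 ^ 11) A)
    (h1 : mu (wt m) (A ∩ ball 1 (29 / 50)) ≤ (1 / √m) ^ 2 / 10 ^ 6) (y : ℝ) (hy : |y| ≤ 1 / 4) :
    volume (A ∩ ball (⟨1 / 2 + 1 / 20 / √m, y⟩ : ℂ) (1 / 40 / √m)) = 0 := by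
  have hsm := gm.hm
  have hsp : (0 : ℝ) < √m := lt_of_lt_of_le (by norm_num) hsm
  set κ : ℝ := 1 / √m with hκ
  have hk : κ ≤ 1 / 10 ^ 7 := one_div_le_one_div_of_le (by norm_num) hsm
  have hk0 : 0 < κ := by positivity
  have e20 : 1 / 20 / √m = κ / 20 := by rw [hκ]; ring
  have e40 : 1 / 40 / √m = κ / 40 := by rw [hκ]; ring
  have c6' := gm.c6 y
  rw [e20] at c6' ⊢
  rw [e40]
  rw [abs_le] at hy
  set c : ℂ := ⟨1 / 2 + κ / 20, y⟩ with hc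
  have hcre : c.re = 1 / 2 + κ / 20 := rfl
  have hcim : c.im = y := rfl
  have hball : ball c (κ / 20) ⊆ ball 1 (29 / 50) := by
    intro z hz
    rw [mem_ball] at hz ⊢
    have h2 : dist c 1 < 57 / 100 := by
      rw [dist_eq_norm]
      refine norm_lt_of_sq (by norm_num) ?_
      simp only [Complex.sub_re, Complex.one_re, Complex.sub_im, Complex.one_im, sub_zero, hcre,
        hcim]
      nlinarith
    have h3 := dist_triangle z c 1
    norm_num at hk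
    linarith
  have hzero : mu (wt m) (A ∩ ball c (κ / 40)) = 0 := by
    have hgR : mu (wt m) (A ∩ ball c (κ / 20)) ≤ κ ^ 2 / 10 ^ 6 :=
      (mu_mono gm.w0 gm.wI (inter_subset_inter_right _ hball)).trans h1
    have hroot : mu (wt m) (A ∩ ball c (κ / 20)) ^ (1 - 1 / 2 : ℝ) ≤ κ / 1000 := by
      rw [show (1 - 1 / 2 : ℝ) = 1 / 2 by norm_num, ← Real.sqrt_eq_rpow, Real.sqrt_le_iff]
      refine ⟨by positivity, hgR.trans ?_⟩
      refine le_of_eq ?_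
      ring
    refine c10 (fun t => mu (wt m) (A ∩ ball c t)) (κ / 40) (κ / 20) (7 / 10) (1 / 2) (10 ^ 5) 8
      (by linarith) ?_ ?_ ?_ (by norm_num) (by norm_num) (by norm_num) (by norm_num) ?_ ?_ ?_
    · intro s _ t _ hst
      exact mu_mono gm.w0 gm.wI (inter_subset_inter_right _ (ball_subset_ball hst))
    · intro s hs t ht
      norm_num at hk
      exact mu_ball_lip gm.w0 gm.w1 gm.wI A c (by linarith [hs.1]) (by linarith [ht.1])
        (by linarith [hs.2]) (by linarith [ht.2])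
    · intro t _
      exact integral_nonneg gm.w0
    · intro t ht d hd
      have g1 := c9 (wt m) (10 ^ 5) (34 / 10 ^ 11) A gm.wc gm.w0 gm.wI (by norm_num) hA c t d
        (by linarith [ht.1]) hd
      have g2 := c6' _ _ (abs_le.2 hy) (hA.meas.inter measurableSet_ball)
        (inter_subset_right.trans (ball_subset_ball ht.2.le)) (pw_nonneg gm.w0 g1) g1
      rw [Real.sqrt_eq_rpow] at g2
      exact g2
    · refine (mul_le_mul_of_nonneg_left hroot (by norm_num)).trans ?_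
      norm_num at hk ⊢
      linarith
    · refine lt_of_le_of_lt hroot ?_
      linarith
  refine null_of_mu gm.wI gm.w0 (hA.meas.inter measurableSet_ball) ?_ hzero
  rintro x ⟨-, hx⟩
  have : x ∈ DD := by
    rw [mem_ball, dist_eq_norm] at hx
    have a1 := (Complex.abs_re_le_norm (x - c)).trans_lt hx
    have a2 := (Complex.abs_im_le_norm (x - c)).trans_lt hx
    rw [Complex.sub_re, hcre, abs_lt] at a1
    rw [Complex.sub_im, hcim, abs_lt] at a2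
    norm_num at hk
    show |x.re| + |x.im| < 1
    have b1 : |x.re| < 3 / 5 := by
      rw [abs_lt]
      constructor <;> linarith
    have b2 : |x.im| < 3 / 10 := by
      rw [abs_lt]
      constructor <;> linarith
    linarith
  rw [← gm.wD] at this
  exact this

/-- no mass near the vertex 1 -/
theorem near_one {m : ℕ} (gm : GM m) (c4 : S_C4) (c9 : S_C9) (c10 : S_C10) (c11 : S_C11)
    {A : Set ℂ} (hA : MinW (wt m) (10 ^ 5) (34 / 10 ^ 11) A) :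
    volume (A ∩ DD ∩ ball 1 (1 / 20)) = 0 := by
  have h1 := phase1 gm c4 c9 c11 hA
  refine gm.c7 _ A hA ?_
  have hsp : (0 : ℝ) < √m := lt_of_lt_of_le (by norm_num) gm.hm
  have hcov : A ∩ {x | |x.re - (1 / 2 + 1 / 20 / √m)| < 1 / 100 / √m ∧ |x.im| < 1 / 4} ⊆
      ⋃ q : {q : ℚ // |(q : ℝ)| ≤ 1 / 4},
        A ∩ ball (⟨1 / 2 + 1 / 20 / √m, ((q : ℚ) : ℝ)⟩ : ℂ) (1 / 40 / √m) := by
    rintro x ⟨hxA, h2, h3⟩
    rw [abs_lt] at h2 h3
    have hkp : 0 < 1 / 100 / √m := by positivity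
    obtain ⟨q, q1, q2⟩ := exists_rat_btwn
      (show x.im < min (x.im + 1 / 100 / √m) (1 / 4) from lt_min (by linarith) h3.2)
    have q3 := q2.trans_le (min_le_left _ _)
    have q4 := q2.trans_le (min_le_right _ _)
    rw [mem_iUnion]
    refine ⟨⟨q, abs_le.2 ⟨by linarith [h3.1], q4.le⟩⟩, hxA, ?_⟩
    rw [mem_ball, dist_eq_norm]
    refine norm_lt_of_sq (by positivity) ?_
    simp only [Complex.sub_re, Complex.sub_im]
    have e1 : 1 / 40 / √m = 5 / 2 * (1 / 100 / √m) := by ring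
    rw [e1]
    have f1 : (x.re - (1 / 2 + 1 / 20 / √m)) ^ 2 ≤ (1 / 100 / √m) ^ 2 :=
      sq_le_sq' h2.1.le h2.2.le
    have f2 : (x.im - (q : ℝ)) ^ 2 ≤ (1 / 100 / √m) ^ 2 :=
      sq_le_sq' (by linarith) (by linarith)
    have f3 : 0 < (1 / 100 / √m) ^ 2 := by positivity
    nlinarith
  refine measure_mono_null hcov ?_
  refine measure_iUnion_null fun q => ?_
  exact phase2 gm c9 c10 hA h1 _ q.2

/-- all vertices, by rotation -/
theorem near_c {m : ℕ} (gm : GM m) (c4 : S_C4) (c9 : S_C9) (c10 : S_C10) (c11 : S_C11)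
    (c12 : S_C12) {A : Set ℂ} (hA : MinW (wt m) (10 ^ 5) (34 / 10 ^ 11) A) (c : ℂ) (hc : ‖c‖ = 1)
    (hw : ∀ x, wt m (c * x) = wt m x) :
    volume (A ∩ DD ∩ ball c (1 / 20)) = 0 := by
  let T : ℂ ≃ₗᵢ[ℝ] ℂ := rotation ⟨c, mem_sphere_zero_iff_norm.2 hc⟩
  have hT : ∀ x, T x = c * x := fun x => rotation_apply _ _
  have h1 := c12 (wt m) T (fun x => by rw [hT, hw]) _ _ A hA
  have h2 := near_one gm c4 c9 c10 c11 h1
  have h3 : T ⁻¹' (A ∩ DD ∩ ball c (1 / 20)) ⊆ T ⁻¹' A ∩ DD ∩ ball 1 (1 / 20) := by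
    rintro x ⟨⟨h4, h5⟩, h6⟩
    refine ⟨⟨h4, ?_⟩, ?_⟩
    · rw [← gm.wD] at h5 ⊢
      have h7 : 0 < wt m (T x) := h5
      rw [hT, hw] at h7
      exact h7
    · rw [mem_ball, dist_eq_norm, hT] at h6
      rw [mem_ball, dist_eq_norm]
      have : c * x - c = c * (x - 1) := by ring
      rw [this, norm_mul, hc, one_mul] at h6
      exact h6
  have h4 := measure_mono_null h3 h2
  rwa [T.measurePreserving.measure_preimage_emb T.toHomeomorph.measurableEmbedding] at h4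

theorem c13 (c0 : S_C0) (c1 : S_C1) (c4 : S_C4) (c5 : S_C5) (c6 : S_C6) (c7 : S_C7) (c8 : S_C8)
    (c9 : S_C9) (c10 : S_C10) (c11 : S_C11) (c12 : S_C12) : S_C13 := by
  obtain ⟨m, hm1, gm⟩ := exists_good c0 c1 c5 c6 c7 c8
  obtain ⟨f1, f2, f3⟩ := competitor gm
  refine ⟨10 ^ 5, 34 / 10 ^ 11, m, by norm_num, by norm_num, by norm_num, hm1,
    ⟨_, _, measurableSet_ball, f1, f2, ?_⟩, ?_⟩
  · refine lt_of_le_of_lt f3 ?_
    norm_num
  · intro A hA c hc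
    have hs := gm.sw
    have hr := gm.sr
    have hi := gm.si
    rcases hc with rfl | rfl | rfl | rfl
    · exact near_c gm c4 c9 c10 c11 c12 hA 1 (by simp) (fun x => by rw [one_mul])
    · refine near_c gm c4 c9 c10 c11 c12 hA (-1) (by simp) (fun x => ?_)
      have : (-1 : ℂ) * x = ⟨-x.re, -x.im⟩ := by
        apply Complex.ext <;> simp
      rw [this, hr, hi]
    · refine near_c gm c4 c9 c10 c11 c12 hA Complex.I (by simp) (fun x => ?_)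
      have : Complex.I * x = ⟨-x.im, x.re⟩ := by
        apply Complex.ext <;> simp
      rw [this, hr, hs]
    · refine near_c gm c4 c9 c10 c11 c12 hA (-Complex.I) (by simp) (fun x => ?_)
      have : -Complex.I * x = ⟨x.im, -x.re⟩ := by
        apply Complex.ext <;> simp
      rw [this, hi, hs]

end Pool.Agent.TH990.HU
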