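import Pool.Agent.TH703.HU.Stm

/-!
# Project HU, C13: auxiliary facts (measure of strips, numerics, annuli)
-/

set_option autoImplicit false

open MeasureTheory Set Metric Filter Topology
open scoped ENNReal Real
open Pool.Agent.TH304.MI Pool.Agent.TH703.HU

noncomputable section

namespace Pool.Agent.TH990.HU

theorem pw_nonneg {w : ℂ → ℝ} (hw : ∀ x, 0 ≤ w x) {A : Set ℂ} {P : ℝ} (h : PW w A P) : 0 ≤ P := by
  have h0 : TW w (fun _ => (0 : ℂ)) :=
    ⟨contDiff_const, HasCompactSupport.zero, by simp [tsupport], fun x => by simpa using hw x⟩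
  have h1 := h _ h0
  simpa [dv2] using h1

theorem vol_rect {s t : Set ℝ} (hs : MeasurableSet s) (ht : MeasurableSet t) :
    volume {x : ℂ | x.re ∈ s ∧ x.im ∈ t} = volume s * volume t := by
  have h := Complex.volume_preserving_equiv_real_prod.measure_preimage (hs.prod ht).nullMeasurableSet
  rw [Measure.volume_eq_prod, Measure.prod_prod] at h
  exact h

theorem meas_rect {s t : Set ℝ} (hs : MeasurableSet s) (ht : MeasurableSet t) :
    MeasurableSet {x : ℂ | x.re ∈ s ∧ x.im ∈ t} :=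
  (Complex.measurable_re hs).inter (Complex.measurable_im ht)

/-- the small square -/
def QQ (δ : ℝ) : Set ℂ := {x | |x.re| < 1 / 2 - δ ∧ |x.im| < 1 / 2 - δ}

theorem meas_QQ (δ : ℝ) : MeasurableSet (QQ δ) := by
  have h1 : Measurable fun x : ℂ => |x.re| := Complex.measurable_re.abs
  have h2 : Measurable fun x : ℂ => |x.im| := Complex.measurable_im.abs
  exact (measurableSet_lt h1 measurable_const).inter (measurableSet_lt h2 measurable_const)

theorem QQ_fin {δ : ℝ} (hδ : 0 < δ) : volume (QQ δ) ≠ ∞ := by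
  have h : QQ δ ⊆ {x : ℂ | x.re ∈ Icc (-1 : ℝ) 1 ∧ x.im ∈ Icc (-1 : ℝ) 1} := by
    rintro x ⟨h1, h2⟩
    rw [abs_lt] at h1 h2
    exact ⟨⟨by linarith, by linarith⟩, ⟨by linarith, by linarith⟩⟩
  refine ne_top_of_le_ne_top ?_ (measure_mono h)
  rw [vol_rect measurableSet_Icc measurableSet_Icc, Real.volume_Icc]
  exact ENNReal.mul_ne_top ENNReal.ofReal_ne_top ENNReal.ofReal_ne_top

theorem vol_strip {δ : ℝ} (hδ : 0 < δ) :
    volume (Icc (-(1 / 2) - δ) (-(1 / 2) + δ) ∪ Icc (1 / 2 - δ) (1 / 2 + δ) : Set ℝ) ≤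
      ENNReal.ofReal (4 * δ) := by
  refine (measure_union_le _ _).trans ?_
  rw [Real.volume_Icc, Real.volume_Icc, ← ENNReal.ofReal_add (by linarith) (by linarith)]
  exact ENNReal.ofReal_le_ofReal (by linarith)

theorem real_rect_le {s t : Set ℝ} (hs : MeasurableSet s) (ht : MeasurableSet t) {a b : ℝ}
    (ha : 0 ≤ a) (hsa : volume s ≤ ENNReal.ofReal a) (htb : volume t ≤ ENNReal.ofReal b) :
    volume {x : ℂ | x.re ∈ s ∧ x.im ∈ t} ≤ ENNReal.ofReal (a * b) := by
  rw [vol_rect hs ht, ENNReal.ofReal_mul ha]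
  exact mul_le_mul' hsa htb

/-- The mass outside the small square. -/
theorem tail_le {w : ℂ → ℝ} {δ : ℝ} (hδ : 0 < δ) (h0 : ∀ x, 0 ≤ w x) (h1 : ∀ x, w x ≤ 1)
    (hD : {x | 0 < w x} = DD) (hI : Integrable w)
    (hs : ∀ x : ℂ, (1 / 2 + δ ≤ |x.re| ∨ 1 / 2 + δ ≤ |x.im|) → w x ≤ δ) :
    ∫ x in (QQ δ)ᶜ, w x ≤ 20 * δ := by
  set I1 : Set ℝ := Icc (-(1 / 2) - δ) (-(1 / 2) + δ) ∪ Icc (1 / 2 - δ) (1 / 2 + δ) with hI1
  set J : Set ℝ := Icc (-1 : ℝ) 1 with hJ
  have mI1 : MeasurableSet I1 := measurableSet_Icc.union measurableSet_Icc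
  have mJ : MeasurableSet J := measurableSet_Icc
  have vJ : volume J ≤ ENNReal.ofReal 2 := by
    rw [hJ, Real.volume_Icc]
    exact ENNReal.ofReal_le_ofReal (by norm_num)
  set S1 : Set ℂ := {x | x.re ∈ I1 ∧ x.im ∈ J} with hS1
  set S2 : Set ℂ := {x | x.re ∈ J ∧ x.im ∈ I1} with hS2
  set B : Set ℂ := {x | x.re ∈ J ∧ x.im ∈ J} with hB
  have mS1 : MeasurableSet S1 := meas_rect mI1 mJ
  have mS2 : MeasurableSet S2 := meas_rect mJ mI1
  have mB : MeasurableSet B := meas_rect mJ mJ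
  have v1 : volume S1 ≤ ENNReal.ofReal (4 * δ * 2) :=
    real_rect_le mI1 mJ (by linarith) (vol_strip hδ) vJ
  have v2 : volume S2 ≤ ENNReal.ofReal (2 * (4 * δ)) :=
    real_rect_le mJ mI1 (by norm_num) vJ (vol_strip hδ)
  have vB : volume B ≤ ENNReal.ofReal (2 * 2) := real_rect_le mJ mJ (by norm_num) vJ vJ
  have f1 : volume S1 ≠ ∞ := ne_top_of_le_ne_top ENNReal.ofReal_ne_top v1
  have f2 : volume S2 ≠ ∞ := ne_top_of_le_ne_top ENNReal.ofReal_ne_top v2
  have fB : volume B ≠ ∞ := ne_top_of_le_ne_top ENNReal.ofReal_ne_top vB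
  have r1 : volume.real S1 ≤ 4 * δ * 2 := ENNReal.toReal_le_of_le_ofReal (by linarith) v1
  have r2 : volume.real S2 ≤ 2 * (4 * δ) := ENNReal.toReal_le_of_le_ofReal (by linarith) v2
  have rB : volume.real B ≤ 2 * 2 := ENNReal.toReal_le_of_le_ofReal (by norm_num) vB
  have i1 : Integrable (S1.indicator fun _ => (1 : ℝ)) :=
    (integrable_indicator_iff mS1).2 (integrableOn_const f1)
  have i2 : Integrable (S2.indicator fun _ => (1 : ℝ)) :=
    (integrable_indicator_iff mS2).2 (integrableOn_const f2)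
  have iB : Integrable (B.indicator fun _ => δ) :=
    (integrable_indicator_iff mB).2 (integrableOn_const fB)
  have n1 : ∀ x, 0 ≤ S1.indicator (fun _ => (1 : ℝ)) x :=
    fun x => indicator_nonneg (fun _ _ => zero_le_one) x
  have n2 : ∀ x, 0 ≤ S2.indicator (fun _ => (1 : ℝ)) x :=
    fun x => indicator_nonneg (fun _ _ => zero_le_one) x
  have nB : ∀ x, 0 ≤ B.indicator (fun _ => δ) x :=
    fun x => indicator_nonneg (fun _ _ => hδ.le) x
  have key : ∀ x ∈ (QQ δ)ᶜ, w x ≤ S1.indicator (fun _ => (1 : ℝ)) x +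
      S2.indicator (fun _ => (1 : ℝ)) x + B.indicator (fun _ => δ) x := by
    intro x hx
    rcases (h0 x).eq_or_lt with hz | hz
    · rw [← hz]
      have := n1 x
      have := n2 x
      have := nB x
      linarith
    · have hxD : x ∈ DD := by
        rw [← hD]
        exact hz
      have hxD' : |x.re| + |x.im| < 1 := hxD
      have a1 := abs_nonneg x.re
      have a2 := abs_nonneg x.im
      have b1 : |x.re| < 1 := by linarith
      have b2 : |x.im| < 1 := by linarith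
      rw [abs_lt] at b1 b2
      have hre : x.re ∈ J := ⟨b1.1.le, b1.2.le⟩
      have him : x.im ∈ J := ⟨b2.1.le, b2.2.le⟩
      have hBx : B.indicator (fun _ => δ) x = δ := indicator_of_mem (show x ∈ B from ⟨hre, him⟩) _
      have q1 := n1 x
      have q2 := n2 x
      have q3 := h1 x
      by_cases c : 1 / 2 + δ ≤ |x.re| ∨ 1 / 2 + δ ≤ |x.im|
      · have := hs x c
        rw [hBx]
        linarith
      · push Not at c
        have hIof : ∀ z : ℝ, |z| < 1 / 2 + δ → 1 / 2 - δ ≤ |z| → z ∈ I1 := by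
          intro z h3 h4
          rw [abs_lt] at h3
          rcases le_abs.1 h4 with h5 | h5
          · exact Or.inr ⟨h5, h3.2.le⟩
          · exact Or.inl ⟨by linarith [h3.1], by linarith⟩
        by_cases c1 : |x.re| < 1 / 2 - δ
        · have c2 : 1 / 2 - δ ≤ |x.im| := by
            by_contra h
            push Not at h
            exact hx ⟨c1, h⟩
          have : S2.indicator (fun _ => (1 : ℝ)) x = 1 :=
            indicator_of_mem (show x ∈ S2 from ⟨hre, hIof _ c.2 c2⟩) _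
          rw [this, hBx]
          linarith
        · push Not at c1
          have : S1.indicator (fun _ => (1 : ℝ)) x = 1 :=
            indicator_of_mem (show x ∈ S1 from ⟨hIof _ c.1 c1, him⟩) _
          rw [this, hBx]
          linarith
  calc ∫ x in (QQ δ)ᶜ, w x
      ≤ ∫ x in (QQ δ)ᶜ, (S1.indicator (fun _ => (1 : ℝ)) x +
        S2.indicator (fun _ => (1 : ℝ)) x + B.indicator (fun _ => δ) x) :=
        setIntegral_mono_on hI.integrableOn ((i1.add i2).add iB).integrableOn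
          (meas_QQ δ).compl key
    _ ≤ ∫ x, (S1.indicator (fun _ => (1 : ℝ)) x +
        S2.indicator (fun _ => (1 : ℝ)) x + B.indicator (fun _ => δ) x) := by
        refine setIntegral_le_integral ((i1.add i2).add iB) (Filter.Eventually.of_forall ?_)
        intro x
        have := n1 x
        have := n2 x
        have := nB x
        show (0 : ℝ) ≤ _
        linarith
    _ = volume.real S1 + volume.real S2 + volume.real B * δ := by
        have z1 : ∫ x, (S1.indicator (fun _ => (1 : ℝ)) x +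
            S2.indicator (fun _ => (1 : ℝ)) x + B.indicator (fun _ => δ) x) =
            (∫ x, (S1.indicator (fun _ => (1 : ℝ)) x + S2.indicator (fun _ => (1 : ℝ)) x)) +
              ∫ x, B.indicator (fun _ => δ) x := integral_add (i1.add i2) iB
        have z2 : (∫ x, (S1.indicator (fun _ => (1 : ℝ)) x + S2.indicator (fun _ => (1 : ℝ)) x)) =
            (∫ x, S1.indicator (fun _ => (1 : ℝ)) x) + ∫ x, S2.indicator (fun _ => (1 : ℝ)) x :=
          integral_add i1 i2
        rw [z1, z2, integral_indicator mS1,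
          integral_indicator mS2, integral_indicator mB, setIntegral_const, setIntegral_const,
          setIntegral_const]
        simp [smul_eq_mul]
    _ ≤ 20 * δ := by nlinarith

/-- mass versus area -/
theorem mass_bounds {w : ℂ → ℝ} {δ : ℝ} (hδ : 0 < δ) (h0 : ∀ x, 0 ≤ w x) (h1 : ∀ x, w x ≤ 1)
    (hD : {x | 0 < w x} = DD) (hI : Integrable w)
    (hs : ∀ x : ℂ, (1 / 2 + δ ≤ |x.re| ∨ 1 / 2 + δ ≤ |x.im|) → w x ≤ δ)
    (hb : ∀ x : ℂ, |x.re| ≤ 1 / 2 - δ → |x.im| ≤ 1 / 2 - δ → 1 - δ ≤ w x)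
    {A : Set ℂ} (hA : MeasurableSet A) :
    mu w A ≤ volume.real (A ∩ QQ δ) + 20 * δ ∧ (1 - δ) * volume.real (A ∩ QQ δ) ≤ mu w A := by
  have mAQ : MeasurableSet (A ∩ QQ δ) := hA.inter (meas_QQ δ)
  have fin : volume (A ∩ QQ δ) ≠ ∞ :=
    ne_top_of_le_ne_top (QQ_fin hδ) (measure_mono inter_subset_right)
  have e := integral_inter_add_sdiff (μ := volume) (f := w) (s := A) (meas_QQ δ) hI.integrableOn
  have e' : mu w A = (∫ x in A ∩ QQ δ, w x) + ∫ x in A \ QQ δ, w x := e.symm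
  have h2 : ∫ x in A \ QQ δ, w x ≤ ∫ x in (QQ δ)ᶜ, w x :=
    setIntegral_mono_set hI.integrableOn (Filter.Eventually.of_forall h0)
      (LE.le.eventuallyLE fun x hx => hx.2)
  have h3 := tail_le hδ h0 h1 hD hI hs
  have h4 : 0 ≤ ∫ x in A \ QQ δ, w x := integral_nonneg h0
  have h5 : ∫ x in A ∩ QQ δ, w x ≤ volume.real (A ∩ QQ δ) := by
    have := norm_setIntegral_le_of_norm_le_const (μ := volume) (f := w) (s := A ∩ QQ δ) (C := 1)
      fin.lt_top (fun x _ => by rw [Real.norm_eq_abs, abs_of_nonneg (h0 x)]; exact h1 x)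
    rw [one_mul] at this
    exact (le_abs_self _).trans this
  have h6 : (1 - δ) * volume.real (A ∩ QQ δ) ≤ ∫ x in A ∩ QQ δ, w x := by
    have := setIntegral_ge_of_const_le (μ := volume) (f := w) mAQ fin
      (fun x hx => hb x hx.2.1.le hx.2.2.le) hI.integrableOn
    rw [smul_eq_mul, mul_comm] at this
    exact this
  rw [e']
  constructor <;> linarith

/-- growth of the mass in balls -/
theorem mu_mono {w : ℂ → ℝ} (h0 : ∀ x, 0 ≤ w x) (hI : Integrable w) {A B : Set ℂ} (h : A ⊆ B) :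
    mu w A ≤ mu w B :=
  setIntegral_mono_set hI.integrableOn (Filter.Eventually.of_forall h0)
    (LE.le.eventuallyLE h)

theorem vol_ball_real (c : ℂ) {r : ℝ} (hr : 0 ≤ r) : volume.real (ball c r) = π * r ^ 2 := by
  rw [measureReal_def, Complex.volume_ball, ENNReal.toReal_mul, ENNReal.toReal_pow,
    ENNReal.toReal_ofReal hr]
  simp [mul_comm]

theorem mu_ball_sub {w : ℂ → ℝ} (h0 : ∀ x, 0 ≤ w x) (h1 : ∀ x, w x ≤ 1) (hI : Integrable w)
    (A : Set ℂ) (c : ℂ) {s t : ℝ} (hs : 0 ≤ s) (hst : s ≤ t) (ht : t ≤ 1) :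
    mu w (A ∩ ball c t) - mu w (A ∩ ball c s) ≤ 8 * (t - s) := by
  have e := integral_inter_add_sdiff (μ := volume) (f := w) (s := A ∩ ball c t)
    (measurableSet_ball (x := c) (ε := s)) hI.integrableOn
  have hsub : ball c s ⊆ ball c t := ball_subset_ball hst
  have e2 : A ∩ ball c t ∩ ball c s = A ∩ ball c s := by
    ext x
    constructor
    · rintro ⟨⟨h3, _⟩, h5⟩
      exact ⟨h3, h5⟩
    · rintro ⟨h3, h5⟩
      exact ⟨⟨h3, hsub h5⟩, h5⟩
  rw [e2] at e
  have e3 : mu w (A ∩ ball c t) - mu w (A ∩ ball c s) =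
      ∫ x in (A ∩ ball c t) \ ball c s, w x := by
    unfold mu
    linarith
  rw [e3]
  have fin : volume ((A ∩ ball c t) \ ball c s) ≠ ∞ :=
    ne_top_of_le_ne_top (measure_ball_lt_top (x := c) (r := t)).ne
      (measure_mono fun x hx => hx.1.2)
  have h5 : ∫ x in (A ∩ ball c t) \ ball c s, w x ≤ volume.real ((A ∩ ball c t) \ ball c s) := by
    have := norm_setIntegral_le_of_norm_le_const (μ := volume) (f := w)
      (s := (A ∩ ball c t) \ ball c s) (C := 1)
      fin.lt_top (fun x _ => by rw [Real.norm_eq_abs, abs_of_nonneg (h0 x)]; exact h1 x)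
    rw [one_mul] at this
    exact (le_abs_self _).trans this
  have h6 : volume.real ((A ∩ ball c t) \ ball c s) ≤ volume.real (ball c t \ ball c s) :=
    measureReal_mono (fun x hx => ⟨hx.1.2, hx.2⟩)
      (ne_top_of_le_ne_top (measure_ball_lt_top (x := c) (r := t)).ne
        (measure_mono sdiff_subset))
  have h7 : volume.real (ball c t \ ball c s) = π * t ^ 2 - π * s ^ 2 := by
    rw [measureReal_sdiff hsub measurableSet_ball (measure_ball_lt_top (x := c) (r := t)).ne,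
      vol_ball_real c (hs.trans hst), vol_ball_real c hs]
  have h8 : π * t ^ 2 - π * s ^ 2 ≤ 8 * (t - s) := by
    have hpi : π < 4 := by linarith [Real.pi_lt_d2]
    have : π * (t + s) ≤ 8 := by
      have : π * (t + s) ≤ 4 * 2 :=
        mul_le_mul hpi.le (by linarith) (by linarith) (by norm_num)
      linarith
    nlinarith
  linarith

theorem mu_ball_lip {w : ℂ → ℝ} (h0 : ∀ x, 0 ≤ w x) (h1 : ∀ x, w x ≤ 1) (hI : Integrable w)
    (A : Set ℂ) (c : ℂ) {s t : ℝ} (hs : 0 ≤ s) (ht : 0 ≤ t) (hs1 : s ≤ 1) (ht1 : t ≤ 1) :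
    |mu w (A ∩ ball c s) - mu w (A ∩ ball c t)| ≤ 8 * |s - t| := by
  rcases le_total s t with h | h
  · have e1 := mu_ball_sub h0 h1 hI A c hs h ht1
    have e2 := mu_mono h0 hI (show A ∩ ball c s ⊆ A ∩ ball c t from
      inter_subset_inter_right _ (ball_subset_ball h))
    rw [abs_sub_comm, abs_of_nonneg (by linarith), abs_sub_comm s t, abs_of_nonneg (by linarith)]
    exact e1
  · have e1 := mu_ball_sub h0 h1 hI A c ht h hs1
    have e2 := mu_mono h0 hI (show A ∩ ball c t ⊆ A ∩ ball c s from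
      inter_subset_inter_right _ (ball_subset_ball h))
    rw [abs_of_nonneg (by linarith), abs_of_nonneg (by linarith)]
    exact e1

/-- a set of positive weight and zero mass is null -/
theorem null_of_mu {w : ℂ → ℝ} (hI : Integrable w) (h0 : ∀ x, 0 ≤ w x) {S : Set ℂ}
    (hS : MeasurableSet S) (hp : ∀ x ∈ S, 0 < w x) (h : mu w S = 0) : volume S = 0 := by
  have h1 := (setIntegral_eq_zero_iff_of_nonneg_ae (Filter.Eventually.of_forall h0)
    hI.integrableOn).1 h
  have h2 := (ae_restrict_iff' hS).1 h1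
  rw [measure_eq_zero_iff_ae_notMem]
  filter_upwards [h2] with x hx hxS
  have := hx hxS
  have h3 := hp x hxS
  simp at this
  linarith

/-! ### numerics -/

theorem sqrt_add_ge {a b : ℝ} (ha : 0 ≤ a) (hb : 0 ≤ b) : √(a + b) ≤ √a + √b := by
  rw [Real.sqrt_le_iff]
  have h1 := Real.sqrt_nonneg a
  have h2 := Real.sqrt_nonneg b
  refine ⟨by positivity, ?_⟩
  nlinarith [Real.sq_sqrt ha, Real.sq_sqrt hb, mul_nonneg h1 h2]

theorem num_lower {a b V M P : ℝ} (ha : 0 ≤ a) (hb : 0 ≤ b) (hab : a + b = V)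
    (hM : M ≤ V + 20 * (1 / 10 ^ 30)) (hP : P ≤ 10 ^ 5 * M - 7 / 10 ^ 7)
    (h4 : √2 * (1 - 1 / 10 ^ 30) * (√a + √b) ≤ P + 200 * V) : 1 / 10 ^ 10 ≤ V := by
  by_contra hc
  push Not at hc
  have hV : 0 ≤ V := by linarith
  have hx0 := Real.sqrt_nonneg V
  have hx2 := Real.sq_sqrt hV
  have hs : √V ≤ √a + √b := by rw [← hab]; exact sqrt_add_ge ha hb
  have hx1 : √V ≤ 1 / 10 ^ 5 := by
    rw [Real.sqrt_le_iff]
    constructor
    · norm_num
    · norm_num at hc ⊢
      linarith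
  have h2 : (7 / 5 : ℝ) ≤ √2 * (1 - 1 / 10 ^ 30) := by
    have : (141 / 100 : ℝ) ≤ √2 := by
      rw [Real.le_sqrt (by norm_num) (by norm_num)]
      norm_num
    have h3 : (141 / 100 : ℝ) * (1 - 1 / 10 ^ 30) ≤ √2 * (1 - 1 / 10 ^ 30) :=
      mul_le_mul_of_nonneg_right this (by norm_num)
    refine le_trans ?_ h3
    norm_num
  have h5 : 7 / 5 * √V ≤ √2 * (1 - 1 / 10 ^ 30) * (√a + √b) :=
    mul_le_mul h2 hs hx0 (by linarith)
  have h6 : V ≤ √V * (1 / 10 ^ 5) := by nlinarith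
  have h7 : 7 / 5 * √V ≤ 10 ^ 5 * (V + 20 * (1 / 10 ^ 30)) - 7 / 10 ^ 7 + 200 * V := by linarith
  norm_num at h6 h7
  linarith

theorem num_upper {a b V M r : ℝ} (ha : 0 ≤ a) (hb : 0 ≤ b) (hab : a + b = V) (hr : 0 ≤ r)
    (hV1 : 1 / 10 ^ 10 ≤ V) (hV2 : V ≤ 35 / 10 ^ 11)
    (hM : M ≤ V + 20 * (1 / 10 ^ 30)) (hr2 : |M - π * r ^ 2 / 4| ≤ 1 / 10 ^ 30)
    (h4 : √2 * (1 - 1 / 10 ^ 30) * (√a + √b) ≤ π * r / 2 + 1 / 10 ^ 30 + 200 * V)
    (h4' : 2 * (1 - 1 / 10 ^ 30) * √a ≤ π * r / 2 + 1 / 10 ^ 30 + 200 * V) :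
    a ≤ 11 / 100 * V := by
  have hV : 0 ≤ V := by linarith
  have hx0 := Real.sqrt_nonneg V
  have hx2 := Real.sq_sqrt hV
  have hu0 := Real.sqrt_nonneg a
  have hs0 := Real.sqrt_nonneg b
  have hu2 := Real.sq_sqrt ha
  have hs2 := Real.sq_sqrt hb
  have hx1 : √V ≤ 19 / 10 ^ 6 := by
    rw [Real.sqrt_le_iff]
    constructor
    · norm_num
    · norm_num at hV2 ⊢
      linarith
  have hx3 : 1 / 10 ^ 5 ≤ √V := by
    rw [Real.le_sqrt (by norm_num) hV]
    norm_num at hV1 ⊢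
    linarith
  have hpi1 := Real.pi_gt_d4
  have hpi2 := Real.pi_lt_d4
  have hr3 : π * r ^ 2 / 4 ≤ M + 1 / 10 ^ 30 := by
    have := (abs_le.1 hr2).1
    linarith
  -- `P ≤ 1.7726 √V`
  have hP : π * r / 2 + 1 / 10 ^ 30 ≤ 17726 / 10000 * √V := by
    have h1 : (π * r / 2) ^ 2 ≤ (17726 / 10000 * √V - 1 / 10 ^ 30) ^ 2 := by
      have e1 : (π * r / 2) ^ 2 = π * (π * r ^ 2 / 4) := by ring
      have e2 : π * (π * r ^ 2 / 4) ≤ π * (V + 21 * (1 / 10 ^ 30)) :=
        mul_le_mul_of_nonneg_left (by linarith) (by linarith)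
      have e3 : π * (V + 21 * (1 / 10 ^ 30)) ≤ 3.1416 * (V + 21 * (1 / 10 ^ 30)) := by
        refine mul_le_mul_of_nonneg_right hpi2.le ?_
        positivity
      have e4 : (17726 / 10000 * √V - 1 / 10 ^ 30) ^ 2 =
          (17726 / 10000) ^ 2 * V - 2 * (17726 / 10000) * (1 / 10 ^ 30) * √V + (1 / 10 ^ 30) ^ 2 := by
        nlinarith
      rw [e1, e4]
      have e5 : 2 * (17726 / 10000) * (1 / 10 ^ 30) * √V ≤
          2 * (17726 / 10000) * (1 / 10 ^ 30) * (19 / 10 ^ 6 : ℝ) :=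
        mul_le_mul_of_nonneg_left hx1 (by norm_num)
      refine (e2.trans e3).trans ?_
      norm_num at e5 hV1 ⊢
      linarith
    have h2 : π * r / 2 ≤ 17726 / 10000 * √V - 1 / 10 ^ 30 := by
      refine (le_abs_self _).trans (abs_le_of_sq_le_sq h1 ?_)
      norm_num at hx3 ⊢
      linarith
    linarith
  have h200 : 200 * V ≤ 38 / 10000 * √V := by
    have : V ≤ √V * (19 / 10 ^ 6) := by nlinarith
    norm_num at this ⊢
    linarith
  have hR : π * r / 2 + 1 / 10 ^ 30 + 200 * V ≤ 17764 / 10000 * √V := by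
    norm_num at hP h200 ⊢
    linarith
  have h2 : (14142 / 10000 : ℝ) * (1 - 1 / 10 ^ 30) ≤ √2 * (1 - 1 / 10 ^ 30) := by
    refine mul_le_mul_of_nonneg_right ?_ (by norm_num)
    rw [Real.le_sqrt (by norm_num) (by norm_num)]
    norm_num
  have h3 : (14141 / 10000 : ℝ) ≤ √2 * (1 - 1 / 10 ^ 30) := by
    refine le_trans ?_ h2
    norm_num
  have h5 : 14141 / 10000 * (√a + √b) ≤ 17764 / 10000 * √V :=
    (mul_le_mul_of_nonneg_right h3 (by positivity)).trans (h4.trans hR)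
  have h6 : 199 / 100 * √a ≤ 17764 / 10000 * √V := by
    refine le_trans ?_ (h4'.trans hR)
    refine mul_le_mul_of_nonneg_right ?_ hu0
    norm_num
  -- squares
  have k1 : √a + √b ≤ 1257 / 1000 * √V := by linarith
  have k2 : √a ≤ 893 / 1000 * √V := by linarith
  have k3 : (√a + √b) ^ 2 ≤ (1257 / 1000 * √V) ^ 2 :=
    pow_le_pow_left₀ (by positivity) k1 2
  have k4 : a ≤ (893 / 1000) ^ 2 * V := by
    have := pow_le_pow_left₀ hu0 k2 2
    rw [hu2, mul_pow, hx2] at this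
    exact this
  have k5 : √a * √b ≤ 291 / 1000 * V := by
    have : (√a + √b) ^ 2 = V + 2 * (√a * √b) := by
      rw [add_sq, hu2, hs2]
      linarith
    rw [this, mul_pow, hx2] at k3
    norm_num at k3
    linarith
  have k6 : a * b ≤ (291 / 1000) ^ 2 * V ^ 2 := by
    have : (√a * √b) ^ 2 ≤ (291 / 1000 * V) ^ 2 :=
      pow_le_pow_left₀ (by positivity) k5 2
    rw [mul_pow, hu2, hs2, mul_pow] at this
    exact this
  by_contra hc
  push Not at hc
  have hb' : b = V - a := by linarith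
  rw [hb'] at k6
  have hVp : 0 < V := by linarith
  have k7 : 0 ≤ (a - 11 / 100 * V) * (4 / 5 * V - a) := by
    refine mul_nonneg (by linarith) ?_
    norm_num at k4
    linarith
  nlinarith [mul_pos hVp hVp, mul_pos hVp (sub_pos.2 hc)]

end Pool.Agent.TH990.HU
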